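import Pool.Agent.Helper55.FR.GoalsA

/-!
# Packet FR-LOCB
-/

namespace Pool.Agent.Helper42.FR

open Finset Pool.Agent.Helper55.FR

theorem hadj_symm {V : Type} [Fintype V] [DecidableEq V] {n : Equiv.Perm V} {m : V → V}
    {B : Finset V} (hc : Cub n m) (hB : ∀ x, x ∈ B ↔ m x ∈ B) {x y : V} (h : hadj n m B x y) :
    hadj n m B y x := by
  rcases h with h | h | ⟨h, hx⟩
  · exact Or.inr (Or.inl h)
  · exact Or.inl h
  · refine Or.inr (Or.inr ⟨?_, ?_⟩)
    · rw [h, hc.mm]
    · rw [h]; exact (hB x).1 hx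

/-- Packet FR-LOCB. -/
theorem locb : LocbStmt := by
  intro V _ _ n m B g T I Q hc hB hbar hhalf
  classical
  have hne : ∀ K ∈ Q, K.Nonempty := by
    intro K hK
    rw [← card_pos]
    obtain ⟨k, hk⟩ := hbar.pre.odd K hK
    omega
  set P : Finset (Finset V) := Q.filter (fun K => Fintype.card V < 2 * K.card) with hP
  have hPQ : ∀ K ∈ P, K ∈ Q := fun K hK => (mem_filter.1 hK).1
  have hP1 : P.card ≤ 1 := by
    rw [card_le_one]
    intro a ha b hb
    by_contra hab
    have hd := hbar.pre.kK a (hPQ a ha) b (hPQ b hb) hab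
    have h1 := card_union_of_disjoint hd
    have h2 := card_le_univ (a ∪ b)
    have h3 := (mem_filter.1 ha).2
    have h4 := (mem_filter.1 hb).2
    omega
  set X : Finset V := univ \ P.biUnion id with hX
  have memX : ∀ x, x ∈ X ↔ ∀ K ∈ P, x ∉ K := by
    intro x
    simp [hX]
  have hTX : T ⊆ X := by
    intro x hx
    rw [memX]
    intro K hK hxK
    exact (disjoint_left.1 (hbar.pre.tK K (hPQ K hK))) hx hxK
  have hIX : I ⊆ X := by
    intro x hx
    rw [memX]
    intro K hK hxK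
    exact (disjoint_left.1 (hbar.pre.iK K (hPQ K hK))) hx hxK
  have hKX : ∀ K ∈ Q, K ∉ P → K ⊆ X := by
    intro K hK hKP x hx
    rw [memX]
    intro K' hK' hxK'
    have hne' : K ≠ K' := by
      intro h
      exact hKP (h ▸ hK')
    exact (disjoint_left.1 (hbar.pre.kK K hK K' (hPQ K' hK') hne')) hx hxK'
  have hKP : ∀ K ∈ Q, K ⊆ X → K ∉ P := by
    intro K hK hKX' hKP'
    obtain ⟨x, hx⟩ := hne K hK
    exact (memX x).1 (hKX' hx) K hKP' hx
  -- admissible sets
  let Ad : Finset V → Prop := fun S => S ⊆ X ∧ ∀ x ∈ S, ∀ y ∈ X, hadj n m B x y → y ∈ S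
  let Su : Finset V → Prop := fun S => (T ∩ S).card + 1 ≤ (I ∩ S).card + (Q.filter (· ⊆ S)).card
  have dich : ∀ S, Ad S → ∀ K ∈ Q, K ⊆ X → K ⊆ S ∨ Disjoint K S := by
    intro S hS K hK hKX'
    by_cases h : (K ∩ S).Nonempty
    · left
      have := hbar.pre.con K hK (K ∩ S) inter_subset_left h (by
        intro x hx y hy hxy
        rw [mem_inter] at hx
        exact mem_inter.2 ⟨hy, hS.2 x hx.2 y (hKX' hy) hxy⟩)
      exact inter_eq_left.1 this
    · right
      rw [not_nonempty_iff_eq_empty] at h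
      exact disjoint_iff_inter_eq_empty.2 h
  have hXad : Ad X := ⟨Subset.refl _, fun _ _ y hy _ => hy⟩
  have hXsu : Su X := by
    show (T ∩ X).card + 1 ≤ (I ∩ X).card + (Q.filter (· ⊆ X)).card
    rw [inter_eq_left.2 hTX, inter_eq_left.2 hIX]
    have h1 : Q \ P ⊆ Q.filter (· ⊆ X) := by
      intro K hK
      rw [mem_sdiff] at hK
      exact mem_filter.2 ⟨hK.1, hKX K hK.1 hK.2⟩
    have h2 := card_le_card h1
    have h3 : Q.card - P.card ≤ (Q \ P).card := le_card_sdiff P Q
    have h4 := hbar.sur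
    omega
  obtain ⟨S, hS, hmin⟩ := exists_min_image (univ.filter fun S : Finset V => Ad S ∧ Su S)
    (fun S => S.card) ⟨X, mem_filter.2 ⟨mem_univ _, hXad, hXsu⟩⟩
  obtain ⟨-, hSad, hSsu⟩ := mem_filter.1 hS
  have hsub : ∀ K ∈ Q.filter (· ⊆ S), K ∈ Q ∧ K ⊆ S := fun K hK => mem_filter.1 hK
  have hcov : T ∩ S ∪ I ∩ S ∪ (Q.filter (· ⊆ S)).biUnion id = S := by
    apply Subset.antisymm
    · intro x hx
      simp only [mem_union, mem_inter, mem_biUnion, id] at hx
      rcases hx with (hx | hx) | ⟨K, hK, hxK⟩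
      · exact hx.2
      · exact hx.2
      · exact (hsub K hK).2 hxK
    · intro x hx
      simp only [mem_union, mem_inter, mem_biUnion, id]
      rcases hbar.cov x with h | h | ⟨K, hK, hxK⟩
      · exact Or.inl (Or.inl ⟨h, hx⟩)
      · exact Or.inl (Or.inr ⟨h, hx⟩)
      · refine Or.inr ⟨K, mem_filter.2 ⟨hK, ?_⟩, hxK⟩
        have hKP' : K ∉ P := fun h => (memX x).1 (hSad.1 hx) K h hxK
        rcases dich S hSad K hK (hKX K hK hKP') with h | h
        · exact h
        · exact absurd hx (disjoint_left.1 h hxK)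
  refine ⟨T ∩ S, I ∩ S, Q.filter (· ⊆ S), ?_, hSsu, ?_, ?_, ?_⟩
  · constructor
    · exact hbar.pre.tI.mono inter_subset_left inter_subset_left
    · intro K hK
      exact (hbar.pre.tK K (hsub K hK).1).mono_left inter_subset_left
    · intro K hK
      exact (hbar.pre.iK K (hsub K hK).1).mono_left inter_subset_left
    · intro K hK K' hK'
      exact hbar.pre.kK K (hsub K hK).1 K' (hsub K' hK').1
    · intro x hx
      rw [mem_inter] at hx
      obtain ⟨h1, h2, h3⟩ := hbar.pre.cI x hx.1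
      refine ⟨mem_inter.2 ⟨h1, hSad.2 x hx.2 _ (hTX h1) (Or.inl rfl)⟩,
        mem_inter.2 ⟨h2, hSad.2 x hx.2 _ (hTX h2) (Or.inr (Or.inl (by simp)))⟩, fun hxB => ?_⟩
      exact mem_inter.2 ⟨h3 hxB, hSad.2 x hx.2 _ (hTX (h3 hxB)) (Or.inr (Or.inr ⟨rfl, hxB⟩))⟩
    · intro K hK x hx
      obtain ⟨h1, h2, h3⟩ := hbar.pre.cK K (hsub K hK).1 x hx
      have hxS := (hsub K hK).2 hx
      refine ⟨?_, ?_, fun hxB => ?_⟩
      · rcases h1 with h | h
        · exact Or.inl h
        · exact Or.inr (mem_inter.2 ⟨h, hSad.2 x hxS _ (hTX h) (Or.inl rfl)⟩)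
      · rcases h2 with h | h
        · exact Or.inl h
        · exact Or.inr (mem_inter.2 ⟨h, hSad.2 x hxS _ (hTX h) (Or.inr (Or.inl (by simp)))⟩)
      · rcases h3 hxB with h | h
        · exact Or.inl h
        · exact Or.inr (mem_inter.2 ⟨h, hSad.2 x hxS _ (hTX h) (Or.inr (Or.inr ⟨rfl, hxB⟩))⟩)
    · intro K hK
      exact hbar.pre.odd K (hsub K hK).1
    · intro K hK
      exact hbar.pre.big K (hsub K hK).1
    · intro K hK
      exact hbar.pre.con K (hsub K hK).1
  · intro K hK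
    have h1 := hKP K (hsub K hK).1 ((hsub K hK).2.trans hSad.1)
    by_contra h
    exact h1 (mem_filter.2 ⟨(hsub K hK).1, by omega⟩)
  · have h1 := card_le_card (inter_subset_left : T ∩ S ⊆ T)
    have h2 := card_le_card (inter_subset_left : I ∩ S ⊆ I)
    omega
  · rw [hcov]
    intro S1 hS1 hne1 hcl
    by_contra hS1S
    set S2 : Finset V := S \ S1 with hS2
    have hne2 : S2.Nonempty := by
      rw [hS2, sdiff_nonempty]
      intro h
      exact hS1S (Subset.antisymm hS1 h)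
    have had1 : Ad S1 := ⟨hS1.trans hSad.1, fun x hx y hy hxy =>
      hcl x hx y (hSad.2 x (hS1 hx) y hy hxy) hxy⟩
    have had2 : Ad S2 := by
      refine ⟨sdiff_subset.trans hSad.1, fun x hx y hy hxy => ?_⟩
      rw [hS2, mem_sdiff] at hx ⊢
      refine ⟨hSad.2 x hx.1 y hy hxy, fun hy1 => ?_⟩
      exact hx.2 (hcl y hy1 x hx.1 (hadj_symm hc hB hxy))
    have hun : S1 ∪ S2 = S := union_sdiff_of_subset hS1
    have hdis : Disjoint S1 S2 := disjoint_sdiff
    have hadd : ∀ A : Finset V, (A ∩ S).card = (A ∩ S1).card + (A ∩ S2).card := by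
      intro A
      rw [← card_union_of_disjoint, ← inter_union_distrib_left, hun]
      exact hdis.mono inter_subset_right inter_subset_right
    have hQadd : (Q.filter (· ⊆ S)).card ≤ (Q.filter (· ⊆ S1)).card + (Q.filter (· ⊆ S2)).card := by
      have h1 : Q.filter (· ⊆ S) ⊆ Q.filter (· ⊆ S1) ∪ Q.filter (· ⊆ S2) := by
        intro K hK
        obtain ⟨hKQ, hKS⟩ := hsub K hK
        rcases dich S1 had1 K hKQ (hKS.trans hSad.1) with h | h
        · exact mem_union_left _ (mem_filter.2 ⟨hKQ, h⟩)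
        · refine mem_union_right _ (mem_filter.2 ⟨hKQ, fun x hx => ?_⟩)
          rw [hS2, mem_sdiff]
          exact ⟨hKS hx, disjoint_left.1 h hx⟩
      exact (card_le_card h1).trans (card_union_le _ _)
    have hc1 : S1.card < S.card := card_lt_card (Finset.ssubset_iff_subset_ne.2 ⟨hS1, hS1S⟩)
    have hc2 : S2.card < S.card := by
      have h1 := card_union_of_disjoint hdis
      rw [hun] at h1
      have h2 := card_pos.2 hne1
      omega
    have hs1 : ¬ Su S1 := fun h => by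
      have := hmin S1 (mem_filter.2 ⟨mem_univ _, had1, h⟩)
      omega
    have hs2 : ¬ Su S2 := fun h => by
      have := hmin S2 (mem_filter.2 ⟨mem_univ _, had2, h⟩)
      omega
    have hT := hadd T
    have hI := hadd I
    have e0 : (T ∩ S).card + 1 ≤ (I ∩ S).card + (Q.filter (· ⊆ S)).card := hSsu
    have e1 : ¬ ((T ∩ S1).card + 1 ≤ (I ∩ S1).card + (Q.filter (· ⊆ S1)).card) := hs1
    have e2 : ¬ ((T ∩ S2).card + 1 ≤ (I ∩ S2).card + (Q.filter (· ⊆ S2)).card) := hs2
    omega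

end Pool.Agent.Helper42.FR
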