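import Pool.Agent.Helper92.FR.GoalsB

set_option autoImplicit false

namespace Pool.Agent.Helper42.FR

open Pool.Agent.Helper92.FR Pool.Agent.Helper81.CC Pool.Agent.Bin

/-- the error of a product -/
theorem prod_err {ι : Type} (s : Finset ι) (a b : ι → ℂ) (A : ι → ℝ) (ε : ℝ) (hε : 0 ≤ ε)
    (hA : ∀ i ∈ s, ‖a i‖ ≤ A i) (hb : ∀ i ∈ s, ‖b i - a i‖ ≤ ε * A i) :
    ‖∏ i ∈ s, b i - ∏ i ∈ s, a i‖ ≤ (∏ i ∈ s, A i) * ((1 + ε) ^ s.card - 1) ∧
      ‖∏ i ∈ s, a i‖ ≤ ∏ i ∈ s, A i ∧ 0 ≤ ∏ i ∈ s, A i := by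
  classical
  induction s using Finset.induction_on with
  | empty => simp
  | insert i s hi ih =>
    obtain ⟨h1, h2, h3⟩ := ih (fun j hj => hA j (Finset.mem_insert_of_mem hj))
      (fun j hj => hb j (Finset.mem_insert_of_mem hj))
    have hAi := hA i (Finset.mem_insert_self i s)
    have hbi := hb i (Finset.mem_insert_self i s)
    have hAi0 : 0 ≤ A i := (norm_nonneg _).trans hAi
    have hbn : ‖b i‖ ≤ A i * (1 + ε) := by
      have : b i = (b i - a i) + a i := by ring
      rw [this]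
      calc ‖b i - a i + a i‖ ≤ ‖b i - a i‖ + ‖a i‖ := norm_add_le _ _
        _ ≤ ε * A i + A i := add_le_add hbi hAi
        _ = A i * (1 + ε) := by ring
    rw [Finset.prod_insert hi, Finset.prod_insert hi, Finset.prod_insert hi,
      Finset.card_insert_of_notMem hi]
    refine ⟨?_, ?_, mul_nonneg hAi0 h3⟩
    · have hdec : b i * ∏ j ∈ s, b j - a i * ∏ j ∈ s, a j =
          b i * (∏ j ∈ s, b j - ∏ j ∈ s, a j) + (b i - a i) * ∏ j ∈ s, a j := by ring
      have hpow : 1 ≤ (1 + ε) ^ s.card := one_le_pow₀ (by linarith)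
      rw [hdec]
      calc ‖b i * (∏ j ∈ s, b j - ∏ j ∈ s, a j) + (b i - a i) * ∏ j ∈ s, a j‖
          ≤ ‖b i‖ * ‖∏ j ∈ s, b j - ∏ j ∈ s, a j‖ + ‖b i - a i‖ * ‖∏ j ∈ s, a j‖ := by
            refine (norm_add_le _ _).trans ?_
            rw [norm_mul, norm_mul]
        _ ≤ (A i * (1 + ε)) * ((∏ i ∈ s, A i) * ((1 + ε) ^ s.card - 1)) +
            (ε * A i) * (∏ i ∈ s, A i) := by
            refine add_le_add (mul_le_mul hbn h1 (norm_nonneg _) ?_)
              (mul_le_mul hbi h2 (norm_nonneg _) ?_)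
            · exact mul_nonneg hAi0 (by linarith)
            · exact mul_nonneg hε hAi0
        _ = A i * (∏ i ∈ s, A i) * ((1 + ε) ^ (s.card + 1) - 1) := by
            rw [pow_succ]
            ring
    · rw [norm_mul]
      exact mul_le_mul hAi h2 (norm_nonneg _) hAi0

/-- `(1 + ε)^k - 1 ≤ 2 k ε` if `k ε ≤ 1` -/
theorem pow_err (ε : ℝ) (hε : 0 ≤ ε) (k : ℕ) (hk : k * ε ≤ 1) :
    (1 + ε) ^ k - 1 ≤ 2 * (k * ε) := by
  have h1 : (1 + ε) ^ k ≤ Real.exp (k * ε) := by
    calc (1 + ε) ^ k ≤ (Real.exp ε) ^ k := by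
          refine pow_le_pow_left₀ (by linarith) ?_ k
          have := Real.add_one_le_exp ε
          linarith
      _ = Real.exp (k * ε) := by rw [← Real.exp_nat_mul]
  have h2 : Real.exp (k * ε) ≤ 1 + 2 * (k * ε) := by
    have hx0 : 0 ≤ k * ε := mul_nonneg (Nat.cast_nonneg k) hε
    have := Real.abs_exp_sub_one_le (x := k * ε) (by rw [abs_of_nonneg hx0]; exact hk)
    rw [abs_of_nonneg hx0] at this
    have h3 := (abs_le.1 this).2
    linarith
  linarith

/-- `|x^k - 1| ≤ 2 k η` if `|x - 1| ≤ η` and `k η ≤ 1` -/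
theorem pow_sub_one_abs (x η : ℝ) (hη : |x - 1| ≤ η) (k : ℕ) (hk : k * η ≤ 1) :
    |x ^ k - 1| ≤ 2 * (k * η) := by
  have hη0 : 0 ≤ η := (abs_nonneg _).trans hη
  have h1 : ∀ k : ℕ, |x ^ k - 1| ≤ (1 + η) ^ k - 1 := by
    intro k
    induction k with
    | zero => simp
    | succ k ih =>
      have e : x ^ (k + 1) - 1 = x * (x ^ k - 1) + (x - 1) := by ring
      have hx : |x| ≤ 1 + η := by
        have : x = (x - 1) + 1 := by ring
        rw [this]
        calc |x - 1 + 1| ≤ |x - 1| + |1| := abs_add_le _ _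
          _ ≤ η + 1 := by rw [abs_one]; linarith
          _ = 1 + η := by ring
      have hp : 1 ≤ (1 + η) ^ k := one_le_pow₀ (by linarith)
      rw [e]
      calc |x * (x ^ k - 1) + (x - 1)| ≤ |x| * |x ^ k - 1| + |x - 1| := by
            refine (abs_add_le _ _).trans ?_
            rw [abs_mul]
        _ ≤ (1 + η) * ((1 + η) ^ k - 1) + η :=
            add_le_add (mul_le_mul hx ih (abs_nonneg _) (by linarith)) hη
        _ = (1 + η) ^ (k + 1) - 1 := by
            rw [pow_succ]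
            ring
  exact (h1 k).trans (pow_err η hη0 k hk)

theorem wt_mem (M : ℕ) (k : ℤ) (hk : k.natAbs ≤ M) : 0 ≤ wt M k ∧ wt M k ≤ 1 := by
  unfold wt
  have hf : ∀ i ∈ Finset.range k.natAbs, 0 ≤ ((M : ℝ) - i) / ((M : ℝ) + i + 1) ∧
      ((M : ℝ) - i) / ((M : ℝ) + i + 1) ≤ 1 := by
    intro i hi
    have hi' : i < k.natAbs := Finset.mem_range.1 hi
    have h1 : (i : ℝ) ≤ M := by exact_mod_cast (by omega : i ≤ M)
    have h2 : (0 : ℝ) < (M : ℝ) + i + 1 := by positivity
    refine ⟨div_nonneg (by linarith) h2.le, ?_⟩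
    rw [div_le_one h2]
    have : (0 : ℝ) ≤ i := Nat.cast_nonneg i
    linarith
  exact ⟨Finset.prod_nonneg fun i hi => (hf i hi).1,
    Finset.prod_le_one (fun i hi => (hf i hi).1) fun i hi => (hf i hi).2⟩

theorem prodwt_mem {d : ℕ} (M : ℕ) (k : Fin d → ℤ) (hk : k ∈ grid M) :
    0 ≤ ∏ i, wt M (k i) ∧ ∏ i, wt M (k i) ≤ 1 := by
  have hk' : ∀ i, (k i).natAbs ≤ M := by
    intro i
    unfold grid at hk
    rw [Fintype.mem_piFinset] at hk
    have := hk i
    rw [Finset.mem_Icc] at this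
    omega
  exact ⟨Finset.prod_nonneg fun i _ => (wt_mem M (k i) (hk' i)).1,
    Finset.prod_le_one (fun i _ => (wt_mem M (k i) (hk' i)).1)
      fun i _ => (wt_mem M (k i) (hk' i)).2⟩

theorem val_invNat {n : ℕ} (h : 1 ≤ n) : (invNat n).val = 1 / (n : ℝ) := by
  unfold invNat Qn.val
  simp only [BN.val_sub, BN.val_ofNat]
  have : ((n - 1 : ℕ) : ℝ) + 1 = n := by
    rw [Nat.cast_sub h]
    push_cast
    ring
  rw [this]
  simp

theorem val_qNat (n : ℕ) : (qNat n).val = n := by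
  unfold qNat
  simp

/-- the numerical inequality -/
theorem numer (d n q X : ℕ) (hd : 1 ≤ d) (hq : 1 ≤ q) (h2 : 2 * (d * q) ≤ X) :
    64 * q * (n + 1) * (2 * (10 ^ 30 * X ^ 12) + 1) ^ d * (400 * d) ^ d * (2 * 10 ^ 14) ≤
      2 ^ (100 * X ^ 2 + n) := by
  have hX2 : 2 ≤ X := le_trans (by nlinarith) h2
  have hdX : 2 * d ≤ X := le_trans (Nat.mul_le_mul_left 2 (Nat.le_mul_of_pos_right d hq)) h2
  have hqX : q ≤ X := by nlinarith
  have hXX : X ≤ 2 ^ X := Nat.lt_two_pow_self.le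
  have e1 : 64 * (2 * 10 ^ 14) ≤ 2 ^ 54 := by norm_num
  have e2 : q ≤ 2 ^ X := hqX.trans hXX
  have e3 : n + 1 ≤ 2 ^ n := Nat.lt_two_pow_self
  have e4 : 2 * (10 ^ 30 * X ^ 12) + 1 ≤ 2 ^ (102 + 12 * X) := by
    have h12 : 1 ≤ X ^ 12 := Nat.one_le_pow _ _ (by omega)
    calc 2 * (10 ^ 30 * X ^ 12) + 1 ≤ (3 * 10 ^ 30) * X ^ 12 := by nlinarith
      _ ≤ 2 ^ 102 * (2 ^ X) ^ 12 := Nat.mul_le_mul (by norm_num) (Nat.pow_le_pow_left hXX 12)
      _ = 2 ^ (102 + 12 * X) := by rw [← pow_mul, ← pow_add]; congr 1; ring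
  have e5 : (2 * (10 ^ 30 * X ^ 12) + 1) ^ d ≤ 2 ^ ((102 + 12 * X) * d) := by
    rw [pow_mul]
    exact Nat.pow_le_pow_left e4 d
  have e6 : (400 * d) ^ d ≤ 2 ^ ((9 + X) * d) := by
    rw [pow_mul]
    refine Nat.pow_le_pow_left ?_ d
    calc 400 * d ≤ 2 ^ 9 * 2 ^ X := Nat.mul_le_mul (by norm_num) (le_trans (by omega) hXX)
      _ = 2 ^ (9 + X) := by rw [← pow_add]
  calc 64 * q * (n + 1) * (2 * (10 ^ 30 * X ^ 12) + 1) ^ d * (400 * d) ^ d * (2 * 10 ^ 14)
      = (64 * (2 * 10 ^ 14)) * q * (n + 1) * (2 * (10 ^ 30 * X ^ 12) + 1) ^ d *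
          (400 * d) ^ d := by ring
    _ ≤ 2 ^ 54 * 2 ^ X * 2 ^ n * 2 ^ ((102 + 12 * X) * d) * 2 ^ ((9 + X) * d) :=
        Nat.mul_le_mul (Nat.mul_le_mul (Nat.mul_le_mul (Nat.mul_le_mul e1 e2) e3) e5) e6
    _ = 2 ^ (54 + X + n + (102 + 12 * X) * d + (9 + X) * d) := by
        rw [← pow_add, ← pow_add, ← pow_add, ← pow_add]
    _ ≤ 2 ^ (100 * X ^ 2 + n) := by
        refine Nat.pow_le_pow_right (by norm_num) ?_
        have h1 : 2 * ((102 + 12 * X) * d + (9 + X) * d) ≤ (111 + 13 * X) * X := by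
          have : 2 * ((102 + 12 * X) * d + (9 + X) * d) = (111 + 13 * X) * (2 * d) := by ring
          rw [this]
          exact Nat.mul_le_mul le_rfl hdX
        nlinarith

/-- the error of one summand -/
theorem term_err (hV0 : Val0Stmt) (hV1 : Val1Stmt) (hV2 : Val2Stmt) (hEXS : ExsStmt)
    (hQTL : QtlStmt) (hTRQ : TrqStmt) (hBND : BndStmt)
    (D : Nin) (lam : List Qn) (TL : List (List Qn)) (P K KE W M H : ℕ) (hWf : Wf D)
    (hd : 1 ≤ nrow D) (hlam : lam.length = nrow D) (hM1 : 1 ≤ M) (hH1 : 1 ≤ H)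
    (hdH : nrow D ≤ H) (hMn : 16 ≤ M)
    (hPn : D.1.length + nrow D + 1 ≤ P) (hK : K = 40 * M * P)
    (hKE : KE = P + 50 * (D.1.length + nrow D) * M)
    (hW : (2 * M + 1) ^ nrow D ≤ W)
    (hNor : Nor (CR D) (SR D) (lv (nrow D) lam) (lm (nrow D) TL))
    (hTlen : TL.length = nrow D) (hTrow : ∀ r ∈ TL, r.length = nrow D)
    (hg : ∑ i, ((lm (nrow D) TL).mulVec
      (gg (CR D) (SR D) (eR D) (lv (nrow D) lam)) i) ^ 2 ≤ 1 / 10 ^ 13) (n0 : ℕ) :
    ‖Cn.val (smd D lam TL P K KE W M H n0) -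
      summand (CR D) (SR D) (eR D) (lv (nrow D) lam) (lm (nrow D) TL) (1 / H) M
        (fun i => (dig W M n0 i : ℤ) - M)‖ ≤
      Real.exp (Eex (CR D) (SR D) (eR D) (lv (nrow D) lam)) *
        (∏ j, MM (-|aa (CR D) (SR D) (lv (nrow D) lam) j|)) *
        (2 * ((((D.1.length + nrow D + 1 : ℕ) : ℝ)) * (2 / 2 ^ P))) := by
  obtain ⟨-, -, hval⟩ := hV2 D lam TL M H W hWf hlam hTlen hTrow hM1 hH1 hW
  obtain ⟨hk, hw, hpsi, hzet⟩ := hval n0
  obtain ⟨-, -, -, hE, -, -⟩ := hV1 D lam hWf hlam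
  obtain ⟨hdot, hcols⟩ := hV0
  obtain ⟨hprod, -, hcol⟩ := hcols D
  set k : Fin (nrow D) → ℤ := fun i => (dig W M n0 i : ℤ) - M with hkdef
  set h : ℝ := 1 / (H : ℝ) with hh
  have hHpos : (0 : ℝ) < H := by exact_mod_cast hH1
  have hhpos : 0 < h := by rw [hh]; positivity
  obtain ⟨hEb, hPb, hsb⟩ := hBND D.1.length (nrow D) M (CR D) (SR D) (eR D) (lv (nrow D) lam)
    (lm (nrow D) TL) h k hhpos hd hNor hg hk
  have hdh : (nrow D : ℝ) * h ≤ 1 := by
    rw [hh, mul_one_div, div_le_one hHpos]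
    exact_mod_cast hdH
  have hMpos : (0 : ℝ) < M := by exact_mod_cast hM1
  have hM16 : (16 : ℝ) ≤ M := by exact_mod_cast hMn
  have hdhM : (nrow D : ℝ) * h * M ≤ M := by
    calc (nrow D : ℝ) * h * M ≤ 1 * M := mul_le_mul_of_nonneg_right hdh hMpos.le
      _ = M := one_mul _
  have hdhM0 : 0 ≤ (nrow D : ℝ) * h * M := by positivity
  have hPr : ((D.1.length : ℝ) + nrow D) + 1 ≤ P := by exact_mod_cast hPn
  have hn1 : (1 : ℝ) ≤ (D.1.length : ℝ) + nrow D := by
    have : (1 : ℝ) ≤ nrow D := by exact_mod_cast hd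
    have h0 : (0 : ℝ) ≤ D.1.length := Nat.cast_nonneg _
    linarith
  have hP1 : 1 ≤ P := by omega
  have hP1r : (1 : ℝ) ≤ P := by exact_mod_cast hP1
  -- the exponential factor
  set E : ℝ := Eex (CR D) (SR D) (eR D) (lv (nrow D) lam) with hEdef
  set Ps : ℝ := Psi (CR D) (SR D) (eR D) (lv (nrow D) lam) (lm (nrow D) TL) h k with hPsdef
  set z0 : Cn := Cn.mk (eex D lam) (psi D lam TL (tvec (nrow D) W M H n0)) with hz0
  have hz0v : Cn.val z0 = (E : ℂ) + Complex.I * (Ps : ℂ) := by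
    rw [hz0, Cn.val_mk, hE, hpsi]
  have hz0n : ‖Cn.val z0‖ ≤ |E| + |Ps| := by
    rw [hz0v]
    refine (norm_add_le _ _).trans ?_
    rw [norm_mul, Complex.norm_I, one_mul, Complex.norm_real, Complex.norm_real,
      Real.norm_eq_abs, Real.norm_eq_abs]
  have hexs := hEXS (P + 3 * (D.1.length + nrow D)) KE z0 (by
    rw [hKE]
    push_cast
    have h1 : |Ps| ≤ (4 * ((D.1.length : ℝ) + nrow D) + 1) * M :=
      hPb.trans (mul_le_mul_of_nonneg_left hdhM (by positivity))
    have h2 : (0 : ℝ) ≤ ((D.1.length : ℝ) + nrow D) * (M - 16) :=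
      mul_nonneg (by linarith) (by linarith)
    have h3 : (0 : ℝ) ≤ ((D.1.length : ℝ) + nrow D - 1) * M :=
      mul_nonneg (by linarith) hMpos.le
    nlinarith)
  have hexp_ge : 1 / 2 ^ (P + 3 * (D.1.length + nrow D)) ≤ 2 / 2 ^ P * Real.exp E := by
    have he2 : Real.exp 2 ≤ 8 := by
      have h1 := Real.exp_one_lt_d9
      have h0 : 0 < Real.exp 1 := Real.exp_pos 1
      have : Real.exp 2 = Real.exp 1 * Real.exp 1 := by
        rw [← Real.exp_add]
        norm_num
      rw [this]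
      nlinarith
    have hEge : Real.exp (-(2 * ((D.1.length : ℝ) + nrow D))) ≤ Real.exp E := by
      apply Real.exp_le_exp.2
      have := (abs_le.1 hEb).1
      linarith
    have hpow : (1 / 8 : ℝ) ^ (D.1.length + nrow D) ≤
        Real.exp (-(2 * ((D.1.length : ℝ) + nrow D))) := by
      have e1 : Real.exp (-(2 * ((D.1.length : ℝ) + nrow D))) =
          (Real.exp (-2)) ^ (D.1.length + nrow D) := by
        rw [← Real.exp_nat_mul]
        congr 1
        push_cast
        ring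
      rw [e1]
      refine pow_le_pow_left₀ (by norm_num) ?_ _
      rw [Real.exp_neg, one_div]
      exact inv_anti₀ (Real.exp_pos 2) he2
    have e3 : (1 : ℝ) / 2 ^ (P + 3 * (D.1.length + nrow D)) =
        1 / 2 ^ P * (1 / 8) ^ (D.1.length + nrow D) := by
      rw [pow_add, pow_mul, one_div_pow]
      norm_num
      ring
    rw [e3]
    refine mul_le_mul ?_ (hpow.trans hEge) (by positivity) (by positivity)
    exact div_le_div_of_nonneg_right (by norm_num) (by positivity)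
  -- the factors `qtil`
  have hj : ∀ j : Fin D.1.length ⊕ Fin (nrow D),
      ‖QQ (zeta (CR D) (SR D) (lv (nrow D) lam) (lm (nrow D) TL) h k j)‖ ≤
        MM (-|aa (CR D) (SR D) (lv (nrow D) lam) j|) ∧
      ‖Cn.val (qtil P K (Qn.abs (dot lam (colL D j)))
          (zet lam TL (tvec (nrow D) W M H n0) (colL D j))) -
        QQ (zeta (CR D) (SR D) (lv (nrow D) lam) (lm (nrow D) TL) h k j)‖ ≤
        2 / 2 ^ P * MM (-|aa (CR D) (SR D) (lv (nrow D) lam) j|) := by
    intro j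
    obtain ⟨hclen, hcv⟩ := hcol hWf j
    have hdv : Qn.val (dot lam (colL D j)) = aa (CR D) (SR D) (lv (nrow D) lam) j := by
      rw [hdot (nrow D) lam (colL D j) hlam hclen, hcv]
      rfl
    have hb : Qn.val (Qn.abs (dot lam (colL D j))) =
        |aa (CR D) (SR D) (lv (nrow D) lam) j| := by
      rw [Qn.val_abs, hdv]
    set a : ℝ := aa (CR D) (SR D) (lv (nrow D) lam) j with ha
    set sg : ℝ := if 0 < a then sjk (CR D) (SR D) (lm (nrow D) TL) h k j
      else - sjk (CR D) (SR D) (lm (nrow D) TL) h k j with hsg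
    have hzt : zeta (CR D) (SR D) (lv (nrow D) lam) (lm (nrow D) TL) h k j =
        ((|a| : ℝ) : ℂ) + (sg : ℂ) * Complex.I := by
      unfold zeta
      rw [mul_comm Complex.I]
    have hsga : |sg| ≤ 2 * M * (1 + |a|) := by
      have h1 : |sg| = |sjk (CR D) (SR D) (lm (nrow D) TL) h k j| := by
        rw [hsg]
        split_ifs
        · rfl
        · rw [abs_neg]
      rw [h1]
      refine (hsb j).trans ?_
      have h0 : 0 ≤ 1 + |a| := by positivity
      refine mul_le_mul_of_nonneg_right ?_ h0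
      linarith
    constructor
    · rw [hzt]
      exact (hTRQ.2.2 |a| (abs_nonneg a)).2.2.2.2.2.2 sg
    · have hq := hQTL P K (Qn.abs (dot lam (colL D j)))
        (zet lam TL (tvec (nrow D) W M H n0) (colL D j)) hP1 (by rw [hb]; exact abs_nonneg _)
        (by rw [hzet j, hb, hzt]; simp) (by
          intro hlt
          rw [hb] at hlt
          rw [hzet j, hzt, hK]
          have hn : ‖((|a| : ℝ) : ℂ) + (sg : ℂ) * Complex.I‖ ≤ |a| + |sg| := by
            refine (norm_add_le _ _).trans ?_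
            rw [norm_mul, Complex.norm_I, mul_one, Complex.norm_real, Complex.norm_real,
              Real.norm_eq_abs, Real.norm_eq_abs, abs_abs]
          push_cast
          have h1 : 2 * (M : ℝ) * (1 + |a|) ≤ 2 * M * (1 + P) :=
            mul_le_mul_of_nonneg_left (by linarith) (by positivity)
          have h2 : (0 : ℝ) ≤ (M - 1) * P := mul_nonneg (by linarith) (by linarith)
          have h3 : (0 : ℝ) ≤ M * (P - 1) := mul_nonneg hMpos.le (by linarith)
          have h4 : (1 : ℝ) ≤ M * P := by nlinarith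
          nlinarith)
      rw [hzet j, hb] at hq
      exact hq
  -- the product
  set ε : ℝ := 2 / 2 ^ P with hε
  have hε0 : 0 ≤ ε := by positivity
  have hmain := prod_err (Finset.univ : Finset (Option (Fin D.1.length ⊕ Fin (nrow D))))
    (fun o => o.elim (Complex.exp (Cn.val z0))
      (fun j => QQ (zeta (CR D) (SR D) (lv (nrow D) lam) (lm (nrow D) TL) h k j)))
    (fun o => o.elim (Cn.val (cexpT KE z0))
      (fun j => Cn.val (qtil P K (Qn.abs (dot lam (colL D j)))
          (zet lam TL (tvec (nrow D) W M H n0) (colL D j)))))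
    (fun o => o.elim (Real.exp E)
      (fun j => MM (-|aa (CR D) (SR D) (lv (nrow D) lam) j|))) ε hε0
    (by
      intro o _
      cases o with
      | none =>
        simp only [Option.elim_none]
        rw [Complex.norm_exp, hz0v]
        simp
      | some j => exact (hj j).1)
    (by
      intro o _
      cases o with
      | none =>
        simp only [Option.elim_none]
        exact hexs.trans hexp_ge
      | some j => exact (hj j).2)
  rw [Fintype.prod_option, Fintype.prod_option, Fintype.prod_option, Finset.card_univ,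
    Fintype.card_option, Fintype.card_sum, Fintype.card_fin, Fintype.card_fin] at hmain
  simp only [Option.elim_none, Option.elim_some] at hmain
  obtain ⟨hm1, -, hm3⟩ := hmain
  have hnε : ((D.1.length + nrow D + 1 : ℕ) : ℝ) * ε ≤ 1 := by
    rw [hε, mul_div_assoc', div_le_one (by positivity)]
    have h1 : 2 ^ (D.1.length + nrow D + 1) ≤ 2 ^ P := Nat.pow_le_pow_right (by norm_num) hPn
    have h2 : D.1.length + nrow D + 1 ≤ 2 ^ (D.1.length + nrow D) := Nat.lt_two_pow_self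
    have h3 : (D.1.length + nrow D + 1) * 2 ≤ 2 ^ P := by
      rw [pow_succ] at h1
      omega
    exact_mod_cast h3
  have hpe := pow_err ε hε0 (D.1.length + nrow D + 1) hnε
  -- the value of `smd`
  have hsmd : Cn.val (smd D lam TL P K KE W M H n0) =
      ((∏ i, wt M (k i) : ℝ) : ℂ) * (Cn.val (cexpT KE z0) *
        ∏ j, Cn.val (qtil P K (Qn.abs (dot lam (colL D j)))
          (zet lam TL (tvec (nrow D) W M H n0) (colL D j)))) := by
    unfold smd
    rw [Cn.val_mul, Cn.val_mul, Cn.val_ofQ, Cn.val_prod, hw, List.map_map, hprod]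
    rfl
  have hsum : summand (CR D) (SR D) (eR D) (lv (nrow D) lam) (lm (nrow D) TL) h M k =
      ((∏ i, wt M (k i) : ℝ) : ℂ) * (Complex.exp (Cn.val z0) *
        ∏ j, QQ (zeta (CR D) (SR D) (lv (nrow D) lam) (lm (nrow D) TL) h k j)) := by
    unfold summand
    rw [hz0v]
  rw [hsmd, hsum, ← mul_sub, norm_mul, Complex.norm_real, Real.norm_eq_abs]
  obtain ⟨hwt0, hwt1⟩ := prodwt_mem M k hk
  rw [abs_of_nonneg hwt0]
  refine (mul_le_of_le_one_left (norm_nonneg _) hwt1).trans ?_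
  refine hm1.trans ?_
  exact mul_le_mul_of_nonneg_left hpe hm3


theorem sum_range_list (R : ℕ) (f : ℕ → ℂ) :
    ((List.range R).map f).sum = ∑ i ∈ Finset.range R, f i := rfl

theorem evl (hV0 : Val0Stmt) (hV1 : Val1Stmt) (hV2 : Val2Stmt) (hEXS : ExsStmt)
    (hQTL : QtlStmt) (hPIL : PilStmt) (hTRQ : TrqStmt) (hEV1 : Ev1Stmt) (hBND : BndStmt) :
    EvlStmt := by
  intro D lam q X P K KE W m hWf hd hlam hq hX hP hK hKE hW hS hNor hTlen hTrow hTdet hdet0 hg
  -- sizes
  have hlog : 2 ≤ Nat.log 2 (D.1.length + nrow D) + 2 := by omega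
  have h2dq : 2 * (nrow D * q) ≤ X := by
    rw [hX]
    calc 2 * (nrow D * q) = nrow D * 2 * q := by ring
      _ ≤ nrow D * (Nat.log 2 (D.1.length + nrow D) + 2) * q :=
        Nat.mul_le_mul (Nat.mul_le_mul le_rfl hlog) le_rfl
  have hdX : nrow D ≤ X := by
    have : nrow D ≤ nrow D * q := Nat.le_mul_of_pos_right _ hq
    omega
  have hX2 : 2 ≤ X := by
    have : 1 ≤ nrow D * q := Nat.mul_pos hd hq
    omega
  have hnum := numer (nrow D) (D.1.length + nrow D) q X hd hq h2dq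
  have hP' : 100 * X ^ 2 + (D.1.length + nrow D) = P := by rw [hP]; ring
  rw [hP'] at hnum
  have hXsq : X ≤ X ^ 2 := by nlinarith
  have hEv := hEV1 D.1.length (nrow D) q X (CR D) (SR D) (eR D) (lv (nrow D) lam)
    (lm (nrow D) (tmat (hh D lam) m)) hd hq (by rw [hX]) (fun i => lt_of_lt_of_le one_pos (hS i))
    hNor hg
  have hM16 : 16 ≤ 10 ^ 30 * X ^ 12 := by
    have : 1 ≤ X ^ 12 := Nat.one_le_pow _ _ (by omega)
    nlinarith
  generalize hMdef : 10 ^ 30 * X ^ 12 = M at *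
  obtain ⟨H, hH⟩ : ∃ H, H = 200 * X ^ 2 := ⟨_, rfl⟩
  have hH1 : 1 ≤ H := by rw [hH]; nlinarith
  have hHreal : (1 : ℝ) / (200 * (X : ℝ) ^ 2) = 1 / (H : ℝ) := by rw [hH]; push_cast; ring
  rw [hHreal] at hEv
  rw [← hH]
  have hHpos : (0 : ℝ) < H := by exact_mod_cast hH1
  obtain ⟨hE1, hE2⟩ := hEv
  obtain ⟨hcpw, hgrid, -⟩ := hV2 D lam (tmat (hh D lam) m) M H W hWf hlam hTlen hTrow (by omega)
    hH1 hW
  have hterm := term_err hV0 hV1 hV2 hEXS hQTL hTRQ hBND D lam (tmat (hh D lam) m) P K KE W M H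
    hWf hd hlam (by omega) hH1 (by rw [hH]; nlinarith) hM16 (by rw [← hP']; nlinarith) hK hKE hW
    hNor hTlen hTrow hg
  obtain ⟨TL, hTL⟩ : ∃ TL, TL = tmat (hh D lam) m := ⟨_, rfl⟩
  rw [← hTL] at hNor hTlen hTrow hTdet hg hE1 hE2 hterm
  set h : ℝ := 1 / (H : ℝ) with hhdef
  have hhpos : 0 < h := by rw [hhdef]; positivity
  have hh1 : h ≤ 1 := by
    rw [hhdef, div_le_one hHpos]
    exact_mod_cast hH1
  -- positivity
  have hdetabs : |(lm (nrow D) TL).det| = Qn.val (tdet (hh D lam) m) := by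
    rw [hTdet, abs_of_pos hdet0]
  have hprodMM : 0 < ∏ j, MM (-|aa (CR D) (SR D) (lv (nrow D) lam) j|) := by
    refine Finset.prod_pos fun j _ => ?_
    have h1 := (hTRQ.2.2 |aa (CR D) (SR D) (lv (nrow D) lam) j| (abs_nonneg _)).1
    exact lt_of_lt_of_le (by positivity) h1
  have hdr : (0 : ℝ) < nrow D := by exact_mod_cast (by omega : 0 < nrow D)
  have hplow : 0 < plow (nrow D) := by
    unfold plow
    positivity
  generalize hΔ : Qn.val (tdet (hh D lam) m) = Δ at *
  rw [hdetabs] at hE1 hE2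
  set ex : ℝ := Real.exp (Eex (CR D) (SR D) (eR D) (lv (nrow D) lam)) with hex
  have hex0 : 0 < ex := Real.exp_pos _
  set MMp : ℝ := ∏ j, MM (-|aa (CR D) (SR D) (lv (nrow D) lam) j|) with hMMp
  set F : ℝ := ff (CR D) (SR D) (eR D) with hF
  have hF0 : 0 < F := lt_of_lt_of_le (by positivity) hE1
  refine ⟨hF0, ?_⟩
  -- the sum
  set Rn : ℕ := (2 * M + 1) ^ nrow D with hRn
  set G' : ℂ := ∑ n0 ∈ Finset.range Rn, Cn.val (smd D lam TL P K KE W M H n0) with hG'
  set G : ℂ := ∑ k ∈ grid M, summand (CR D) (SR D) (eR D) (lv (nrow D) lam)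
    (lm (nrow D) TL) h M k with hG
  have hGsum : G = ∑ n0 ∈ Finset.range Rn, summand (CR D) (SR D) (eR D) (lv (nrow D) lam)
      (lm (nrow D) TL) h M (fun i => (dig W M n0 i : ℤ) - M) := by
    rw [hG, ← hgrid, sum_range_list]
  set n1 : ℝ := ((D.1.length + nrow D + 1 : ℕ) : ℝ) with hn1
  have hGG : |G'.re - G.re| ≤ Rn * (ex * MMp * (2 * (n1 * (2 / 2 ^ P)))) := by
    have h1 : ‖G' - G‖ ≤ Rn * (ex * MMp * (2 * (n1 * (2 / 2 ^ P)))) := by
      rw [hG', hGsum, ← Finset.sum_sub_distrib]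
      refine (norm_sum_le _ _).trans ?_
      refine (Finset.sum_le_sum fun n0 _ => hterm n0).trans ?_
      rw [Finset.sum_const, Finset.card_range, nsmul_eq_mul]
    have h2 := Complex.abs_re_le_norm (G' - G)
    rw [Complex.sub_re] at h2
    exact h2.trans h1
  -- the value of `vslice`
  have hV : Qn.val (vslice D lam P K KE W M H m (64 * X + 15)) =
      Δ * (h * (2 * Qn.val (piT (64 * X + 15)))⁻¹) ^ nrow D * G'.re := by
    unfold vslice
    rw [Qn.val_mul, Qn.val_mul, hΔ, Qn.val_prod, List.map_replicate, List.prod_replicate,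
      Qn.val_mul, Qn.val_inv, Qn.val_mul, val_qNat, val_invNat hH1, Cn.val_re, Cn.val_sum,
      List.map_map, hcpw, sum_range_list, ← hTL]
    simp only [Function.comp_apply, Nat.cast_ofNat]
    rfl
  -- the approximation of `π`
  have hpi := hPIL (64 * X + 15)
  set pt : ℝ := Qn.val (piT (64 * X + 15)) with hpt
  have hXr : (2 : ℝ) ≤ X := by exact_mod_cast hX2
  have hXpos : (0 : ℝ) < X := by linarith
  have hpid : |pt - Real.pi| ≤ 1 / (32 * X) := by
    refine hpi.trans ?_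
    push_cast
    rw [div_le_div_iff₀ (by positivity) (by positivity)]
    nlinarith
  have hpi64 : (1 : ℝ) / (32 * X) ≤ 1 / 64 := by
    rw [div_le_div_iff₀ (by positivity) (by norm_num)]
    linarith
  have hpi3 : 3.14 < Real.pi := Real.pi_gt_d2
  have hpipos : 0 < Real.pi := Real.pi_pos
  have hpt3 : 3 ≤ pt := by
    have := (abs_le.1 hpid).1
    norm_num at hpi3
    linarith
  have hptpos : 0 < pt := by linarith
  have hx : |Real.pi / pt - 1| ≤ 1 / (96 * X) := by
    have e1 : Real.pi / pt - 1 = (Real.pi - pt) / pt := by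
      field_simp
    rw [e1, abs_div, abs_of_pos hptpos, abs_sub_comm, div_le_iff₀ hptpos]
    calc |pt - Real.pi| ≤ 1 / (32 * X) := hpid
      _ = 1 / (96 * X) * 3 := by
        field_simp
        norm_num
      _ ≤ 1 / (96 * X) * pt := mul_le_mul_of_nonneg_left hpt3 (by positivity)
  have hqr : (1 : ℝ) ≤ q := by exact_mod_cast hq
  have h2dqr : 2 * ((nrow D : ℝ) * q) ≤ X := by exact_mod_cast h2dq
  have hdle : (nrow D : ℝ) ≤ X := by exact_mod_cast hdX
  have hxk := pow_sub_one_abs (Real.pi / pt) (1 / (96 * X)) hx (nrow D) (by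
    rw [mul_one_div, div_le_one (by positivity)]
    linarith)
  have hxk2 : |(Real.pi / pt) ^ nrow D - 1| ≤ 1 / (96 * q) := by
    refine hxk.trans ?_
    rw [mul_one_div, mul_div_assoc', div_le_div_iff₀ (by positivity) (by positivity)]
    nlinarith
  -- the errors
  set c : ℝ := (h / (2 * Real.pi)) ^ nrow D with hc
  have hc0 : 0 ≤ c := by positivity
  have hc1 : c ≤ 1 := by
    refine pow_le_one₀ (by positivity) ?_
    rw [div_le_one (by positivity)]
    norm_num at hpi3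
    linarith
  have hVA : Δ * (h * (2 * pt)⁻¹) ^ nrow D * G'.re = (Δ * c * G'.re) * (Real.pi / pt) ^ nrow D := by
    have : (h * (2 * pt)⁻¹) ^ nrow D = c * (Real.pi / pt) ^ nrow D := by
      rw [hc, ← mul_pow]
      congr 1
      field_simp
    rw [this]
    ring
  have hR : (Rn : ℝ) * (2 * (n1 * (2 / 2 ^ P))) ≤ plow (nrow D) / (16 * q) := by
    have hnumr : 64 * (q : ℝ) * n1 * Rn * (400 * (nrow D : ℝ)) ^ nrow D * (2 * 10 ^ 14) ≤
        2 ^ P := by
      rw [hn1, hRn]
      exact_mod_cast hnum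
    have h400 : (0 : ℝ) < (400 * (nrow D : ℝ)) ^ nrow D := by positivity
    unfold plow
    rw [div_div, div_div]
    have e1 : (Rn : ℝ) * (2 * (n1 * (2 / 2 ^ P))) = (4 * n1 * Rn) / 2 ^ P := by
      field_simp
      ring
    rw [e1, div_le_div_iff₀ (by positivity) (by positivity)]
    nlinarith
  have hA : |Δ * c * G'.re - F| ≤ 3 * F / (16 * q) := by
    have e1 : Δ * c * G'.re - F = Δ * c * (G'.re - G.re) + (Δ * c * G.re - F) := by ring
    have h1 : |Δ * c * (G'.re - G.re)| ≤ F / (16 * q) := by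
      rw [abs_mul, abs_of_nonneg (by positivity : 0 ≤ Δ * c)]
      calc Δ * c * |G'.re - G.re| ≤ Δ * 1 * (Rn * (ex * MMp * (2 * (n1 * (2 / 2 ^ P))))) := by
            refine mul_le_mul (mul_le_mul_of_nonneg_left hc1 hdet0.le) hGG (abs_nonneg _) ?_
            linarith
        _ = (Δ * ex * MMp) * (Rn * (2 * (n1 * (2 / 2 ^ P)))) := by ring
        _ ≤ (Δ * ex * MMp) * (plow (nrow D) / (16 * q)) :=
            mul_le_mul_of_nonneg_left hR (by positivity)
        _ = (Δ * plow (nrow D) * ex * MMp) / (16 * q) := by ring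
        _ ≤ F / (16 * q) := div_le_div_of_nonneg_right hE1 (by positivity)
    rw [e1]
    calc |Δ * c * (G'.re - G.re) + (Δ * c * G.re - F)|
        ≤ |Δ * c * (G'.re - G.re)| + |Δ * c * G.re - F| := abs_add_le _ _
      _ ≤ F / (16 * q) + F / (8 * q) := add_le_add h1 hE2
      _ = 3 * F / (16 * q) := by
        field_simp
        ring
  rw [hV, hVA]
  have e2 : Δ * c * G'.re * (Real.pi / pt) ^ nrow D - F =
      (Δ * c * G'.re) * ((Real.pi / pt) ^ nrow D - 1) + (Δ * c * G'.re - F) := by ring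
  have hAabs : |Δ * c * G'.re| ≤ F + 3 * F / (16 * q) := by
    have : Δ * c * G'.re = F + (Δ * c * G'.re - F) := by ring
    rw [this]
    refine (abs_add_le _ _).trans ?_
    rw [abs_of_pos hF0]
    linarith
  have hq16 : 3 * F / (16 * q) ≤ 3 * F / 16 := by
    apply div_le_div_of_nonneg_left (by positivity) (by norm_num)
    linarith
  rw [e2]
  calc |(Δ * c * G'.re) * ((Real.pi / pt) ^ nrow D - 1) + (Δ * c * G'.re - F)|
      ≤ |Δ * c * G'.re| * |(Real.pi / pt) ^ nrow D - 1| + |Δ * c * G'.re - F| := by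
        refine (abs_add_le _ _).trans ?_
        rw [abs_mul]
    _ ≤ (F + 3 * F / 16) * (1 / (96 * q)) + 3 * F / (16 * q) := by
        refine add_le_add (mul_le_mul (by linarith) hxk2 (abs_nonneg _) (by positivity)) hA
    _ ≤ F / (4 * q) := by
        have e3 : (F + 3 * F / 16) * (1 / (96 * q)) + 3 * F / (16 * q) =
            F / q * ((1 + 3 / 16) / 96 + 3 / 16) := by
          field_simp
        have e4 : F / (4 * q) = F / q * (1 / 4) := by
          field_simp
        rw [e3, e4]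
        exact mul_le_mul_of_nonneg_left (by norm_num) (by positivity)

end Pool.Agent.Helper42.FR
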